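import Mathlib
import Pool.Agent.H55.Gilbert.Spectrum

set_option autoImplicit false

namespace Pool.Agent.Results.MP_be01c1_co.NonIsomorphicSections

open Matrix Pool.Agent.H55.Gilbert

/-- the first minimiser, of weight three -/
def v1 : E := ![0, 0, 1, 1, 1]
/-- the second minimiser, of weight four -/
def v2 : E := ![0, 1, 1, 1, 1]

/-- the seven common neighbours of `0` and `(1,0,0,0,0)` in the first section -/
def c : Fin 7 → E :=
  ![![2, 0, 0, 0, 0], ![0, 1, 0, 0, 0], ![0, 2, 0, 0, 0], ![1, 1, 0, 0, 0], ![1, 2, 0, 0, 0],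
    ![2, 1, 0, 0, 0], ![2, 2, 0, 0, 0]]

def e0 : E := ![1, 0, 0, 0, 0]

theorem c_facts : ∀ k, c k ⬝ᵥ v1 = 0 ∧ (1 ≤ hammingNorm (0 - c k) ∧ hammingNorm (0 - c k) ≤ 3 - 1) ∧
    (1 ≤ hammingNorm (e0 - c k) ∧ hammingNorm (e0 - c k) ≤ 3 - 1) := by
  decide +kernel

theorem c_inj : ∀ k l, c k = c l → k = l := by decide +kernel

def good (t : E) : Prop := t ⬝ᵥ v2 = 0 ∧ 1 ≤ hammingNorm t ∧ hammingNorm t ≤ 3 - 1

instance (t : E) : Decidable (good t) := by unfold good; infer_instance

theorem few : ∀ s : E, good s →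
    (Finset.univ.filter (fun t : E => good t ∧ good (t - s))).card ≤ 6 := by
  decide +kernel

/-- There are a prime `q` and `n ≥ 1`, `d ≥ 2`, `t ≥ 0` such that `G_t` has an edge, and two
vectors `v, v'` giving the least eigenvalue of `G_t`, for which the graphs `G[H_t(v)]` and
`G[H_t(v')]` are not isomorphic. -/
theorem result :
    ∃ (q n d t : ℕ) (_ : Fact q.Prime), 1 ≤ n ∧ 2 ≤ d ∧
      ∃ V : Submodule (ZMod q) (Fin n → ZMod q), IsStage q n d t V ∧
        (∃ a b, (sub q n d V).Adj a b) ∧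
        ∃ v v' : Fin n → ZMod q, IsMin q n d V v ∧ IsMin q n d V v' ∧
          IsEmpty (sub q n d (section' q n V v) ≃g sub q n d (section' q n V v')) := by
  refine ⟨3, 5, 3, 0, ⟨Nat.prime_three⟩, by norm_num, by norm_num, ⊤, IsStage.zero, ?_,
    v1, v2, isMin_of_weight v1 (Or.inl (by decide +kernel)),
    isMin_of_weight v2 (Or.inr (by decide +kernel)), ⟨fun φ => ?_⟩⟩
  · refine ⟨⟨0, trivial⟩, ⟨e0, trivial⟩, ?_⟩
    show 1 ≤ hammingNorm ((0 : E) - e0) ∧ hammingNorm ((0 : E) - e0) ≤ 3 - 1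
    decide +kernel
  · -- vertices of the first section
    let a : section' 3 5 ⊤ v1 := ⟨0, trivial, by rw [zero_dotProduct]⟩
    let b : section' 3 5 ⊤ v1 := ⟨e0, trivial, by decide +kernel⟩
    let z : Fin 7 → section' 3 5 ⊤ v1 := fun k => ⟨c k, trivial, (c_facts k).1⟩
    have hab : (sub 3 5 3 (section' 3 5 ⊤ v1)).Adj a b := by
      show 1 ≤ hammingNorm ((0 : E) - e0) ∧ hammingNorm ((0 : E) - e0) ≤ 3 - 1
      decide +kernel
    have haz : ∀ k, (sub 3 5 3 (section' 3 5 ⊤ v1)).Adj a (z k) := fun k => (c_facts k).2.1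
    have hbz : ∀ k, (sub 3 5 3 (section' 3 5 ⊤ v1)).Adj b (z k) := fun k => (c_facts k).2.2
    have hab' := φ.map_rel_iff.mpr hab
    have haz' := fun k => φ.map_rel_iff.mpr (haz k)
    have hbz' := fun k => φ.map_rel_iff.mpr (hbz k)
    -- differences in the second section
    have hdiff : ∀ x y : section' 3 5 ⊤ v2, (sub 3 5 3 (section' 3 5 ⊤ v2)).Adj x y →
        good ((y : E) - (x : E)) := by
      intro x y hxy
      refine ⟨?_, (show (sub 3 5 3 (section' 3 5 ⊤ v2)).Adj y x from hxy.symm)⟩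
      rw [sub_dotProduct, x.2.2, y.2.2, sub_zero]
    let s : E := (φ b : E) - (φ a : E)
    have hs : good s := hdiff _ _ hab'
    let t : Fin 7 → E := fun k => (φ (z k) : E) - (φ a : E)
    have ht : ∀ k, good (t k) ∧ good (t k - s) := by
      intro k
      refine ⟨hdiff _ _ (haz' k), ?_⟩
      have h1 : t k - s = (φ (z k) : E) - (φ b : E) := by
        simp only [t, s]; abel
      rw [h1]
      exact hdiff _ _ (hbz' k)
    have htinj : Function.Injective t := by
      intro k l hkl
      have h1 : (φ (z k) : E) = (φ (z l) : E) := sub_left_injective hkl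
      have h2 : z k = z l := φ.injective (Subtype.ext h1)
      exact c_inj k l (congrArg (fun w : section' 3 5 ⊤ v1 => (w : E)) h2)
    have h7 : (Finset.univ.image t).card = 7 := by
      rw [Finset.card_image_of_injective _ htinj]; simp
    have hsub : Finset.univ.image t ⊆
        Finset.univ.filter (fun t : E => good t ∧ good (t - s)) := by
      intro x hx
      rw [Finset.mem_image] at hx
      obtain ⟨k, _, rfl⟩ := hx
      rw [Finset.mem_filter]
      exact ⟨Finset.mem_univ _, ht k⟩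
    have := Finset.card_le_card hsub
    have h6 := few s hs
    omega

end Pool.Agent.Results.MP_be01c1_co.NonIsomorphicSections
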